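import Pool.Agent.X233.VM.Fin

set_option autoImplicit false

namespace Pool.Agent.X193.VM
open Pool.Agent.X233.VM Matrix
open scoped TensorProduct

universe u

section
variable (p : ℕ) [Fact p.Prime] (k : Type u) [Field k]

/-- Bruhat decomposition -/
theorem coset_cases (P : Gp p ⧸ Bor p) : P = QuotientGroup.mk (1 : Gp p) ∨
    ∃ x : Kp p, P = QuotientGroup.mk (eps p x * sm p) := by
  induction P using QuotientGroup.induction_on with
  | H g =>
    by_cases hc : (g : Matrix (Fin 2) (Fin 2) (Kp p)) 1 0 = 0
    · left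
      rw [eq_comm, QuotientGroup.eq]
      simpa [Bor] using hc
    · right
      refine ⟨(g : Matrix (Fin 2) (Fin 2) (Kp p)) 0 0 / (g : Matrix (Fin 2) (Fin 2) (Kp p)) 1 0, ?_⟩
      rw [eq_comm, QuotientGroup.eq]
      show (((eps p _ * sm p)⁻¹ * g : Gp p) : Matrix (Fin 2) (Fin 2) (Kp p)) 1 0 = 0
      rw [Matrix.SpecialLinearGroup.coe_mul, Matrix.mul_apply, Fin.sum_univ_two,
        Matrix.SpecialLinearGroup.coe_inv, Matrix.adjugate_fin_two,
        Matrix.SpecialLinearGroup.coe_mul]
      simp [eps, sm, Matrix.mul_apply, Fin.sum_univ_two]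
      field_simp
      ring

theorem act_single (g : Gp p) (P : Gp p ⧸ Bor p) :
    act p k g (Finsupp.single P 1) = Finsupp.single (g • P) 1 := by
  simp [act, Finsupp.lmapDomain_apply, Finsupp.mapDomain_single]

theorem act_eta (g : Gp p) : act p k g (eta p k)
    = Finsupp.single (QuotientGroup.mk g : Gp p ⧸ Bor p) 1
      - Finsupp.single (QuotientGroup.mk (g * sm p) : Gp p ⧸ Bor p) 1 := by
  unfold eta oneTr
  rw [map_sub, act_single, act_single, act_single]
  congr 2
  · show (QuotientGroup.mk (g * 1) : Gp p ⧸ Bor p) = _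
    rw [mul_one]
  · show (QuotientGroup.mk (g * (sm p * 1)) : Gp p ⧸ Bor p) = _
    rw [mul_one]

theorem exists_comb (P : Gp p ⧸ Bor p) : ∃ a ∈ Submodule.span k (Set.range (ex p k)),
    (a : Mtr p k) = Finsupp.single (QuotientGroup.mk (1 : Gp p)) 1 - Finsupp.single P 1 := by
  rcases coset_cases p P with rfl | ⟨x, rfl⟩
  · exact ⟨0, Submodule.zero_mem _, by simp⟩
  · refine ⟨ex p k x, Submodule.subset_span ⟨x, rfl⟩, ?_⟩
    show act p k (eps p x) (eta p k) = _
    rw [act_eta]
    congr 2
    rw [eq_comm, QuotientGroup.eq, inv_one, one_mul]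
    show ((eps p x : Gp p) : Matrix (Fin 2) (Fin 2) (Kp p)) 1 0 = 0
    simp [eps]

theorem mem_span (z : St p k) : z ∈ Submodule.span k (Set.range (ex p k)) := by
  have key : St p k ≤ (Submodule.span k (Set.range (ex p k))).map (St p k).subtype := by
    conv_lhs => unfold St
    rw [Submodule.span_le]
    rintro _ ⟨g, rfl⟩
    obtain ⟨a, ha, ha'⟩ := exists_comb p k (QuotientGroup.mk g)
    obtain ⟨b, hb, hb'⟩ := exists_comb p k (QuotientGroup.mk (g * sm p))
    refine Submodule.mem_map.2 ⟨b + (-1 : k) • a, Submodule.add_mem _ hb (Submodule.smul_mem _ _ ha), ?_⟩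
    show (b : Mtr p k) + (-1 : k) • (a : Mtr p k) = act p k g (eta p k)
    rw [act_eta, ha', hb', neg_smul, one_smul]
    abel
  obtain ⟨a, ha, ha'⟩ := key z.2
  have : a = z := Subtype.ext ha'
  rwa [← this]

/-- the wedge -/
noncomputable def wd : St p k →ₗ[k] St p k →ₗ[k] St p k ⊗[k] St p k :=
  (1 / 2 : k) • (TensorProduct.mk k (St p k) (St p k) + (-1 : k) • (TensorProduct.mk k (St p k) (St p k)).flip)

theorem wd_apply (a b : St p k) : wd p k a b = (1 / 2 : k) • (a ⊗ₜ[k] b + (-1 : k) • (b ⊗ₜ[k] a)) := by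
  simp [wd]

theorem wd_mem (a b : St p k) : wd p k a b ∈ Vminus p k := by
  have ha := mem_span p k a
  have hb := mem_span p k b
  induction ha using Submodule.span_induction with
  | mem a ha =>
    obtain ⟨x, rfl⟩ := ha
    induction hb using Submodule.span_induction with
    | mem b hb =>
      obtain ⟨y, rfl⟩ := hb
      by_cases hxy : x = y
      · subst hxy
        have h0 : wd p k (ex p k x) (ex p k x) = 0 := by
          rw [wd_apply]
          have h1 : ∀ t : St p k ⊗[k] St p k, t + (-1 : k) • t = 0 := by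
            intro t
            have h2 : t + (-1 : k) • t = ((1 : k) + (-1 : k)) • t := by rw [add_smul, one_smul]
            rw [h2, add_neg_cancel, zero_smul]
          rw [h1, smul_zero]
        rw [h0]
        exact Submodule.zero_mem _
      · exact Submodule.subset_span ⟨x, y, hxy, by rw [wd_apply]; rfl⟩
    | zero => simp
    | add b b' _ _ h h' => rw [map_add]; exact Submodule.add_mem _ h h'
    | smul c b _ h => rw [map_smul]; exact Submodule.smul_mem _ _ h
  | zero => simp
  | add a a' _ _ h h' => rw [map_add, LinearMap.add_apply]; exact Submodule.add_mem _ h h'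
  | smul c a _ h => rw [map_smul, LinearMap.smul_apply]; exact Submodule.smul_mem _ _ h

theorem act2_wd (g : Gp p) (a b : St p k) :
    act2 p k g (wd p k a b) = wd p k (actSt p k g a) (actSt p k g b) := by
  rw [wd_apply, wd_apply]
  simp [act2]

/-- part VM_TR2: stability of `V_-` -/
theorem t_TR2 (g : Gp p) (z : St p k ⊗[k] St p k) (hz : z ∈ Vminus p k) :
    act2 p k g z ∈ Vminus p k := by
  unfold Vminus at hz
  induction hz using Submodule.span_induction with
  | mem z hz =>
    obtain ⟨x, y, _, rfl⟩ := hz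
    have : rho p k x y = wd p k (ex p k x) (ex p k y) := by rw [wd_apply]; rfl
    rw [this, act2_wd]
    exact wd_mem p k _ _
  | zero => simp
  | add a a' _ _ h h' => rw [map_add]; exact Submodule.add_mem _ h h'
  | smul c a _ h => rw [map_smul]; exact Submodule.smul_mem _ _ h

end

end Pool.Agent.X193.VM
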